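import Pool.Agent.H5.BHG.Stmts5

/-!
# Row SN3 of the extension `bh3`: soundness of `lg`
-/

set_option autoImplicit false

namespace Pool.BHG

open Pool.PG Pool.DPG

theorem sn3_thm (hSB3 : SB3Stmt) : SN3Stmt := fun c g =>
  rcg_all (sb c) c3 (sb c) g (hSB3.1 c g) (hSB3.1 c g) (g.length + 1)

end Pool.BHG
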